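import Mathlib
import Pool.Graph.R_pool_sql_team_seeded_5cf16337.K3h28.NF.VCube
import Pool.Graph.R_seed8.Y787.PInst

/-!
# Independent `p`-adic logarithms are wide (by the `p`-adic hyperplane theorem)
-/

set_option autoImplicit false

namespace Pool.Agent.H23.PF

open Finset Module
open Pool.Agent.Y787 (QC mem_QC HypC hyperplane hypC_padic log_mem)
open Pool.Agent.H297R2 (NoRel Ex DegLE LinePoly exists_hom cube_nonvanish noRel_iff
  totalDegree_sum_monomial_le)
open Pool.Agent.K3h28.NF (Wide evalDet evalDet_degLE evalDet_linePoly exists_eval noRel_of_evalDet)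
open Pool.Agent.W254.PA (LtE logs)
open Pool.Agent.W245.PB (IsIwasawaLog brumer)

section cube

/-- **No cube is entirely exceptional**; the dimension of the cube does not depend on the fields.
(The proof is that of `Pool.Agent.K3h28.NF.cube_free`.) -/
theorem cube_free_uniform (σ M : Type) [Fintype σ] [Fintype M] (D h : ℕ) : ∃ r : ℕ,
    ∀ (κ C : Type) [Field κ] [IsAlgClosed κ] [CharZero κ] [Field C] [Algebra κ C],
    ∀ t : σ → C, NoRel κ D t →
    ∀ (v₀ : M → C) (w : Fin r → M → C),
    (∀ (B : Finset (Fin r)), h < B.card → ∀ V : Submodule κ (B → κ), h < finrank κ V →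
      ∀ α : M → C, (∀ T ∈ V, ∑ c, α c * ∑ i, T i • w i c = 0) → α = 0) →
    ∃ S : Finset (Fin r), NoRel κ D (Sum.elim t (fun c => v₀ c + ∑ i ∈ S, w i c)) := by
  classical
  set I := Ex (σ ⊕ M) D with hI
  set d := Fintype.card I * D with hd
  set b := Fintype.card M * Fintype.card I + h + 1 with hb
  refine ⟨Fintype.card (Fin d × Fin b), ?_⟩
  intro κ C _ _ _ _ _ t ht v₀ w hw
  have e : Fin (Fintype.card (Fin d × Fin b)) ≃ Fin d × Fin b := (Fintype.equivFin _).symm
  set U : Set C := Set.range t ∪ Set.range (fun p : Fin (Fintype.card (Fin d × Fin b)) × M => w p.1 p.2)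
    ∪ Set.range v₀ with hU
  have hUf : U.Finite := ((Set.finite_range _).union (Set.finite_range _)).union (Set.finite_range _)
  have htU : ∀ i, t i ∈ U := fun i => Or.inl (Or.inl ⟨i, rfl⟩)
  have hwU : ∀ k c, w k c ∈ U := fun k c => Or.inl (Or.inr ⟨(k, c), rfl⟩)
  have hvU : ∀ c, v₀ c ∈ U := fun c => Or.inr ⟨c, rfl⟩
  have hwide : ∀ g : Fin d, Wide κ h (fun (i : Fin b) => w (e.symm (g, i))) := by
    intro g V hV α hα
    set Bg : Finset (Fin (Fintype.card (Fin d × Fin b))) :=
      univ.image (fun i : Fin b => e.symm (g, i)) with hBg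
    have hinj : Function.Injective (fun i : Fin b => e.symm (g, i)) := by
      intro i j hij
      exact (Prod.mk.inj (e.symm.injective hij)).2
    have hBc : Bg.card = b := by
      rw [hBg, Finset.card_image_of_injective _ hinj, Finset.card_univ, Fintype.card_fin]
    -- the bijection
    let eB : Fin b ≃ Bg := Equiv.ofBijective
      (fun i => ⟨e.symm (g, i), Finset.mem_image.2 ⟨i, Finset.mem_univ _, rfl⟩⟩) (by
        constructor
        · intro i j hij
          exact hinj (congrArg Subtype.val hij)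
        · rintro ⟨x, hx⟩
          obtain ⟨i, -, hi⟩ := Finset.mem_image.1 hx
          exact ⟨i, Subtype.ext hi⟩)
    let L : (Fin b → κ) ≃ₗ[κ] (Bg → κ) := LinearEquiv.funCongrLeft κ κ eB.symm
    refine hw Bg (by omega) (V.map (L : (Fin b → κ) →ₗ[κ] (Bg → κ))) ?_ α ?_
    · rw [LinearEquiv.finrank_map_eq]
      exact hV
    · intro T hT
      obtain ⟨T', hT', rfl⟩ := hT
      rw [← hα T' hT']
      apply Finset.sum_congr rfl
      intro c _
      congr 1
      rw [← eB.sum_comp]
      apply Finset.sum_congr rfl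
      intro i _
      have h1 : (L : (Fin b → κ) →ₗ[κ] (Bg → κ)) T' (eB i) = T' i := by
        show T' (eB.symm (eB i)) = T' i
        rw [Equiv.symm_apply_apply]
      rw [h1]
      rfl
  obtain ⟨τ, hne, hspan⟩ := exists_eval D h (B := Fin b) (by rw [Fintype.card_fin, hb]; exact Nat.lt_succ_self _) t ht
    (G := Fin d) (fun g i => w (e.symm (g, i))) hwide U hUf htU (fun g i c => hwU _ _)
  set vA : M → Algebra.adjoin κ U := fun c => ⟨v₀ c, Algebra.subset_adjoin (hvU c)⟩ with hvA
  set wA : Fin (Fintype.card (Fin d × Fin b)) → M → Algebra.adjoin κ U :=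
    fun k c => ⟨w k c, Algebra.subset_adjoin (hwU k c)⟩ with hwA
  obtain ⟨η, hη⟩ := cube_nonvanish d (evalDet D (fun j i => τ j ⟨t i, Algebra.subset_adjoin (htU i)⟩))
    (evalDet_degLE D _) (evalDet_linePoly D _) hne
    (fun g i (p : Ex (σ ⊕ M) D × M) => τ p.1 (wA (e.symm (g, i)) p.2)) hspan
    (fun p => τ p.1 (vA p.2))
  refine ⟨univ.filter (fun k => η (e k).1 = some (e k).2), ?_⟩
  set S := univ.filter (fun k => η (e k).1 = some (e k).2) with hS
  have hcoe : (fun c => v₀ c + ∑ i ∈ S, w i c) =
      fun c => ((vA c + ∑ i ∈ S, wA i c : Algebra.adjoin κ U) : C) := by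
    funext c
    push_cast
    rfl
  rw [hcoe]
  apply noRel_of_evalDet D t U htU τ
  convert hη using 2
  funext p
  rw [map_add, Pi.add_apply, map_sum]
  congr 1
  rw [Finset.sum_apply, hS, Finset.sum_filter]
  rw [← e.symm.sum_comp]
  rw [Fintype.sum_prod_type]
  apply Finset.sum_congr rfl
  intro g _
  simp only [Equiv.apply_symm_apply]
  rcases hηg : η g with _ | i₀
  · simp
  · rw [Finset.sum_eq_single i₀]
    · simp
    · intro i _ hi
      rw [if_neg]
      intro h
      exact hi (Option.some.inj h).symm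
    · intro h; exact absurd (mem_univ _) h

end cube

section hyp

variable {Cc : Type} [Field Cc] [CharZero Cc] {Lt : Submodule (QC Cc) Cc} [HypC Lt]

/-- A family of vectors of elements of a space with the hyperplane property with independent entries
is wide. -/
theorem wide_of_indep {B M : Type*} [Fintype B] [Fintype M] (w : B → M → Cc)
    (hw : ∀ i c, w i c ∈ Lt) (hli : LinearIndependent (QC Cc) (fun p : B × M => w p.1 p.2)) :
    Wide (QC Cc) (Fintype.card M * (Fintype.card M - 1)) w := by
  classical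
  intro V hV α hα
  by_contra hα0
  set X : Submodule (QC Cc) Cc := Submodule.span (QC Cc) (Set.range α) with hX
  have hXf : FiniteDimensional (QC Cc) X :=
    FiniteDimensional.span_of_finite (QC Cc) (Set.finite_range _)
  set d := finrank (QC Cc) X with hd
  have hdm : d ≤ Fintype.card M := finrank_range_le_card α
  let bX := Module.finBasis (QC Cc) X
  let x : Fin d → Cc := fun e => ((bX e : X) : Cc)
  have hx : LinearIndependent (QC Cc) x := bX.linearIndependent.map' X.subtype X.ker_subtype
  have hαX : ∀ c, α c ∈ X := fun c => Submodule.subset_span ⟨c, rfl⟩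
  let ρ : M → Fin d → (QC Cc) := fun c e => bX.repr ⟨α c, hαX c⟩ e
  have hαr : ∀ c, α c = ∑ e, ρ c e • x e := by
    intro c
    have h3 := bX.sum_repr ⟨α c, hαX c⟩
    have h4 := congrArg (fun z : X => (z : Cc)) h3
    simp only [Submodule.coe_sum, Submodule.coe_smul] at h4
    exact h4.symm
  obtain ⟨c₁, e₁, hce⟩ : ∃ c e, ρ c e ≠ 0 := by
    by_contra hcon
    push Not at hcon
    apply hα0
    funext c
    rw [hαr c, Pi.zero_apply]
    apply Finset.sum_eq_zero
    intro e _
    rw [hcon c e, zero_smul]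
  set l := finrank (QC Cc) V with hl
  let bV := Module.finBasis (QC Cc) V
  let T : Fin l → (B → (QC Cc)) := fun k => (bV k : B → (QC Cc))
  have hTV : ∀ k, T k ∈ V := fun k => (bV k).2
  let a : Fin d → Fin l → Cc := fun e k => ∑ c, ρ c e • ∑ i, T k i • w i c
  have hhyp := hyperplane (Lt := Lt) d l x a hx ?_ ?_ ?_
  · have h1 : d * (d - 1) ≤ Fintype.card M * (Fintype.card M - 1) := by
      apply Nat.mul_le_mul hdm
      omega
    omega
  · intro e k
    apply Submodule.sum_mem
    intro c _
    apply Submodule.smul_mem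
    apply Submodule.sum_mem
    intro i _
    exact Submodule.smul_mem _ _ (hw i c)
  · intro k
    have h1 := hα (T k) (hTV k)
    rw [← h1]
    simp only [a, Finset.mul_sum]
    rw [Finset.sum_comm]
    apply Finset.sum_congr rfl
    intro c _
    conv_rhs => rw [hαr c]
    simp only [Finset.sum_mul, Finset.mul_sum, Finset.smul_sum]
    rw [Finset.sum_comm]
    apply Finset.sum_congr rfl
    intro i _
    apply Finset.sum_congr rfl
    intro e _
    simp only [Algebra.smul_def]
    ring
  · rw [Fintype.linearIndependent_iff]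
    intro g hg
    have h1 : ∀ p : B × M, ρ p.2 e₁ * ∑ k, g k * T k p.1 = 0 := by
      apply Fintype.linearIndependent_iff.1 hli (fun p : B × M => ρ p.2 e₁ * ∑ k, g k * T k p.1)
      have h2 := congrFun hg e₁
      rw [Finset.sum_apply] at h2
      rw [Pi.zero_apply] at h2
      rw [← h2, Fintype.sum_prod_type]
      simp only [Pi.smul_apply, a, Finset.smul_sum, smul_smul, Finset.mul_sum, Finset.sum_smul]
      rw [Finset.sum_comm]
      rw [Finset.sum_comm (s := (univ : Finset (Fin l)))]
      apply Finset.sum_congr rfl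
      intro c _
      rw [Finset.sum_comm]
      apply Finset.sum_congr rfl
      intro k _
      apply Finset.sum_congr rfl
      intro i _
      congr 1
      ring
    have h3 : ∑ k, g k • T k = 0 := by
      funext i
      rw [Finset.sum_apply, Pi.zero_apply]
      have h4 := h1 (i, c₁)
      rcases mul_eq_zero.1 h4 with h5 | h5
      · exact absurd h5 hce
      · rw [← h5]
        apply Finset.sum_congr rfl
        intro k _
        rw [Pi.smul_apply, smul_eq_mul]
    have h6 : ∑ k, g k • bV k = 0 := by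
      apply Subtype.ext
      rw [Submodule.coe_sum]
      simpa using h3
    exact Fintype.linearIndependent_iff.1 bV.linearIndependent g h6

end hyp

section padic

variable {p : ℕ} [hp : Fact p.Prime] {L : PadicAlgCl p → PadicAlgCl p}

/-- Brumer's theorem as linear independence. -/
theorem brumer_indep (hL : IsIwasawaLog p L) {ι : Type} [Fintype ι] (ω : ι → PadicAlgCl p)
    (halg : ∀ i, ∃ α : PadicAlgCl p, α ≠ 0 ∧ IsAlgebraic ℚ α ∧ ω i = L α)
    (hω : LinearIndependent ℚ ω) : LinearIndependent (QC (PadicAlgCl p)) ω := by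
  choose α hα0 hα hω' using halg
  rw [Fintype.linearIndependent_iff]
  intro c hc i
  have hw : ω = fun i => L (α i) := funext hω'
  obtain ⟨-, h2⟩ := brumer hL α hα0 hα (by rwa [← hw]) 0 isAlgebraic_zero
    (fun i => (c i : PadicAlgCl p)) (fun i => mem_QC.1 (c i).2) (by
      rw [zero_add, ← hc]
      apply Finset.sum_congr rfl
      intro i _
      rw [Algebra.smul_def, hω' i]
      rfl)
  exact_mod_cast h2 i

/-- **No cube of vectors of independent `p`-adic logarithms is entirely exceptional.** The dimension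
of the cube does not depend on the prime. -/
theorem cube_logs (σ M : Type) [Fintype σ] [Fintype M] (D : ℕ) : ∃ r : ℕ,
    ∀ (p : ℕ) [Fact p.Prime] (L : PadicAlgCl p → PadicAlgCl p), IsIwasawaLog p L →
    ∀ t : σ → PadicAlgCl p, NoRel (QC (PadicAlgCl p)) D t →
    ∀ (v₀ : M → PadicAlgCl p) (w : Fin r → M → PadicAlgCl p),
    (∀ i c, ∃ α : PadicAlgCl p, α ≠ 0 ∧ IsAlgebraic ℚ α ∧ w i c = L α) →
    LinearIndependent ℚ (fun p : Fin r × M => w p.1 p.2) →
    ∃ S : Finset (Fin r), NoRel (QC (PadicAlgCl p)) D
      (Sum.elim t (fun c => v₀ c + ∑ i ∈ S, w i c)) := by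
  classical
  obtain ⟨r, hr⟩ := cube_free_uniform σ M D (Fintype.card M * (Fintype.card M - 1))
  refine ⟨r, ?_⟩
  intro p _ L hL t ht v₀ w halg hli
  have hac : IsAlgClosed (QC (PadicAlgCl p)) :=
    (algebraicClosure.isAlgClosure ℚ (PadicAlgCl p)).isAlgClosed
  have hhyp : HypC (Cc := PadicAlgCl p) (LtE (logs L)) := hypC_padic hL
  refine hr (QC (PadicAlgCl p)) (PadicAlgCl p) t ht v₀ w ?_
  intro B _
  have hliQ := brumer_indep hL (fun p : Fin r × M => w p.1 p.2) (fun p => halg _ _) hli
  refine wide_of_indep (Lt := LtE (logs L)) (fun (i : B) c => w i c)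
    (fun i c => log_mem (halg _ _)) ?_
  refine hliQ.comp (fun p : B × M => ((p.1 : Fin r), p.2)) ?_
  rintro ⟨⟨i, hi⟩, c⟩ ⟨⟨j, hj⟩, c'⟩ h
  simp only [Prod.mk.injEq] at h
  obtain ⟨h1, h2⟩ := h
  subst h1
  subst h2
  rfl

end padic

end Pool.Agent.H23.PF
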