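import Mathlib
import Pool.Graph.R_pool_sql_team_seeded_5cf16337.K3h28.AF.Dens
import Pool.Agent.H23.PF.VHypP

/-!
# `p`-adic logarithms of values of multiplicative functions at almost all integers
-/

set_option autoImplicit false

namespace Pool.Agent.H23.PF

open Finset Polynomial
open Pool.Agent.Y787 (QC mem_QC)
open Pool.Agent.H297R2 (NoRel)
open Pool.Agent.K3h28.AF (MultIndep decomp nice_of_poly dense_cube card_square padicValRat_prod
  tupEquiv Nice)
open Pool.Agent.W245.PB (IsIwasawaLog exists_near)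

section fac

open UniqueFactorizationMonoid

/-- Factorisation of multiplicatively independent polynomials (the proof is that of
`Pool.Agent.K3h28.AF.decomp`, without logarithms). -/
theorem decompQ {M : Type} [Fintype M] (G : M → ℤ[X]) (hG : MultIndep G) :
    ∃ (b : ℕ) (H : Fin b → ℤ[X]) (e : M → Fin b → ℕ) (κ : M → ℚ),
      (∀ i, 0 < (H i).natDegree) ∧
      (∀ i j, i ≠ j → IsCoprime ((H i).map (Int.castRingHom ℚ)) ((H j).map (Int.castRingHom ℚ))) ∧
      LinearIndependent ℤ (fun c i => (e c i : ℤ)) ∧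
      (∀ c, κ c ≠ 0) ∧
      ∀ c (n : ℕ), (((G c).eval (n : ℤ) : ℤ) : ℚ) =
          κ c * ∏ i, (((H i).eval (n : ℤ) : ℤ) : ℚ) ^ e c i := by
  classical
  set φ := Int.castRingHom ℚ with hφ
  have hinj : Function.Injective (Polynomial.map φ) :=
    Polynomial.map_injective _ (RingHom.injective_int _)
  set g : M → ℚ[X] := fun c => (G c).map φ with hg
  have hg0 : ∀ c, g c ≠ 0 := fun c h => by
    have h1 : (G c).map φ = (0 : ℤ[X]).map φ := by rw [Polynomial.map_zero]; exact h
    exact hG.ne_zero c (hinj h1)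
  set S : Finset ℚ[X] := univ.biUnion fun c => (normalizedFactors (g c)).toFinset with hS
  have hSm : ∀ s ∈ S, Irreducible s ∧ s.Monic := by
    intro s hs
    rw [hS, Finset.mem_biUnion] at hs
    obtain ⟨c, -, hc⟩ := hs
    rw [Multiset.mem_toFinset, Polynomial.mem_normalizedFactors_iff (hg0 c)] at hc
    exact ⟨hc.1, hc.2.1⟩
  set h : Fin S.card → ℚ[X] := fun i => (S.equivFin.symm i : ℚ[X]) with hh
  have hhS : ∀ i, h i ∈ S := fun i => (S.equivFin.symm i).2
  have hhinj : Function.Injective h := fun i j hij => S.equivFin.symm.injective (Subtype.ext hij)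
  set e : M → Fin S.card → ℕ := fun c i => (normalizedFactors (g c)).count (h i) with he
  have hfac : ∀ c, g c = C (((G c).leadingCoeff : ℤ) : ℚ) * ∏ i, h i ^ e c i := by
    intro c
    have h1 := leadingCoeff_mul_prod_normalizedFactors (g c)
    have h2 : (g c).leadingCoeff = (((G c).leadingCoeff : ℤ) : ℚ) := by
      rw [hg]
      simp only
      rw [Polynomial.leadingCoeff_map_of_injective (RingHom.injective_int _)]
      rfl
    rw [h2, Finset.prod_multiset_count_of_subset _ S (by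
      intro s hs
      rw [hS, Finset.mem_biUnion]
      exact ⟨c, Finset.mem_univ _, hs⟩)] at h1
    rw [← h1]
    congr 1
    rw [← Finset.prod_coe_sort S (fun s => s ^ (normalizedFactors (g c)).count s)]
    rw [← (S.equivFin).symm.prod_comp]
  -- integral multiples
  have hex : ∀ i, ∃ (N : ℤ) (H : ℤ[X]), N ≠ 0 ∧ H.map φ = C (N : ℚ) * h i := by
    intro i
    obtain ⟨N, hN, h1⟩ := IsLocalization.integerNormalization_spec (nonZeroDivisors ℤ) (h i)
    refine ⟨N, IsLocalization.integerNormalization (nonZeroDivisors ℤ) (h i),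
      nonZeroDivisors.ne_zero hN, ?_⟩
    have h2 : (IsLocalization.integerNormalization (nonZeroDivisors ℤ) (h i)).map
        (algebraMap ℤ ℚ) = N • h i := h1
    rw [zsmul_eq_mul] at h2
    rw [show φ = algebraMap ℤ ℚ from rfl, h2]
    simp
  choose N H hN hH using hex
  have hNQ : ∀ i, ((N i : ℤ) : ℚ) ≠ 0 := fun i => by exact_mod_cast hN i
  set κ : M → ℚ := fun c => (((G c).leadingCoeff : ℤ) : ℚ) * ∏ i, ((N i : ℚ)⁻¹) ^ e c i with hκ
  refine ⟨S.card, H, e, κ, ?_, ?_, ?_, ?_, ?_⟩
  · intro i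
    have h1 : (H i).natDegree = ((H i).map φ).natDegree :=
      (Polynomial.natDegree_map_eq_of_injective (RingHom.injective_int _) _).symm
    rw [h1, hH, Polynomial.natDegree_C_mul (hNQ i)]
    exact (hSm _ (hhS i)).1.natDegree_pos
  · intro i j hij
    rw [hH, hH]
    have hu : ∀ i, IsUnit (C ((N i : ℤ) : ℚ)) := fun i =>
      Polynomial.isUnit_C.2 (isUnit_iff_ne_zero.2 (hNQ i))
    rw [isCoprime_mul_unit_left_left (hu i), isCoprime_mul_unit_left_right (hu j)]
    refine ((hSm _ (hhS i)).1.isCoprime_or_dvd (h j)).resolve_right ?_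
    intro hdvd
    apply hij
    apply hhinj
    exact Polynomial.eq_of_monic_of_associated (hSm _ (hhS i)).2 (hSm _ (hhS j)).2
      ((hSm _ (hhS i)).1.associated_of_dvd (hSm _ (hhS j)).1 hdvd)
  · rw [Fintype.linearIndependent_iff]
    intro γ hγ
    set u : M → ℕ := fun c => (γ c).toNat with hu
    set v : M → ℕ := fun c => (-γ c).toNat with hv
    have huv : ∀ c, ((u c : ℕ) : ℤ) - v c = γ c := fun c => by simp only [hu, hv]; omega
    have hsum : ∀ i, ∑ c, u c * e c i = ∑ c, v c * e c i := by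
      intro i
      have h1 := congrFun hγ i
      rw [Finset.sum_apply] at h1
      simp only [Pi.smul_apply, smul_eq_mul, Pi.zero_apply] at h1
      have h2 : (((∑ c, u c * e c i : ℕ)) : ℤ) - ((∑ c, v c * e c i : ℕ) : ℤ) = 0 := by
        rw [← h1]
        push_cast
        rw [← Finset.sum_sub_distrib]
        refine Finset.sum_congr rfl fun c _ => ?_
        rw [← huv c]
        ring
      omega
    have hprod : ∀ u : M → ℕ, ∏ c, g c ^ u c =
        C (((∏ c, (G c).leadingCoeff ^ u c : ℤ)) : ℚ) * ∏ i, h i ^ (∑ c, u c * e c i) := by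
      intro u
      have h1 : ∀ c ∈ (univ : Finset M), g c ^ u c =
          C (((G c).leadingCoeff : ℤ) : ℚ) ^ u c * ∏ i, h i ^ (u c * e c i) := by
        intro c _
        rw [hfac c, mul_pow, ← Finset.prod_pow]
        congr 1
        refine Finset.prod_congr rfl fun i _ => ?_
        rw [← pow_mul, mul_comm]
      rw [Finset.prod_congr rfl h1, Finset.prod_mul_distrib, Finset.prod_comm]
      congr 1
      · push_cast
        rw [map_prod]
        refine Finset.prod_congr rfl fun c _ => ?_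
        rw [map_pow]
      · refine Finset.prod_congr rfl fun i _ => ?_
        rw [Finset.prod_pow_eq_pow_sum]
    have hlc : ∀ u : M → ℕ, ∏ c, (G c).leadingCoeff ^ u c ≠ 0 := fun u =>
      Finset.prod_ne_zero_iff.2 fun c _ => pow_ne_zero _ (leadingCoeff_ne_zero.2 (hG.ne_zero c))
    have h3 := hG u v (∏ c, (G c).leadingCoeff ^ v c) (∏ c, (G c).leadingCoeff ^ u c) (hlc v) (hlc u)
      (by
        apply hinj
        simp only [Polynomial.map_mul, Polynomial.map_C, Polynomial.map_prod, Polynomial.map_pow]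
        change C (φ _) * ∏ c, g c ^ u c = C (φ _) * ∏ c, g c ^ v c
        rw [hprod u, hprod v]
        have h4 : ∀ i, h i ^ (∑ c, u c * e c i) = h i ^ (∑ c, v c * e c i) := fun i => by
          rw [hsum i]
        rw [Finset.prod_congr rfl fun i _ => h4 i]
        simp only [hφ, eq_intCast]
        ring)
    intro c
    have h4 := congrFun h3 c
    rw [← huv c, h4, sub_self]
  · intro c
    rw [hκ]
    refine mul_ne_zero (by exact_mod_cast leadingCoeff_ne_zero.2 (hG.ne_zero c)) ?_
    exact Finset.prod_ne_zero_iff.2 fun i _ => pow_ne_zero _ (inv_ne_zero (hNQ i))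
  · intro c n
    have h1 : (((G c).eval (n : ℤ) : ℤ) : ℚ) = (((G c).leadingCoeff : ℤ) : ℚ) *
        ∏ i, ((((H i).eval (n : ℤ) : ℤ) : ℚ) / (N i : ℚ)) ^ e c i := by
      have h2 : (((G c).eval (n : ℤ) : ℤ) : ℚ) = (g c).eval (n : ℚ) := by
        have := Polynomial.eval_map_apply (f := φ) (p := G c) (n : ℤ)
        simp only [hφ, eq_intCast, Int.cast_natCast] at this
        exact this.symm
      have h3 : ∀ i, (((H i).eval (n : ℤ) : ℤ) : ℚ) = (N i : ℚ) * (h i).eval (n : ℚ) := by
        intro i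
        have h4 := Polynomial.eval_map_apply (f := φ) (p := H i) (n : ℤ)
        rw [hH] at h4
        simp only [hφ, eq_intCast, Int.cast_natCast, Polynomial.eval_mul, Polynomial.eval_C] at h4
        exact h4.symm
      rw [h2, hfac c, Polynomial.eval_mul, Polynomial.eval_C, Polynomial.eval_prod]
      congr 1
      refine Finset.prod_congr rfl fun i _ => ?_
      rw [Polynomial.eval_pow, h3 i, mul_div_cancel_left₀ _ (hNQ i)]
    rw [h1, hκ]
    simp only
    rw [mul_assoc, ← Finset.prod_mul_distrib]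
    congr 1
    refine Finset.prod_congr rfl fun i _ => ?_
    rw [div_eq_mul_inv, mul_pow, mul_comm]

end fac

section log

variable {p : ℕ} [hp : Fact p.Prime] {L : PadicAlgCl p → PadicAlgCl p}

/-- a rational number with `p`-adic logarithm `0` is, up to the sign, a power of `p` -/
theorem padicValRat_eq_zero (hL : IsIwasawaLog p L) (R : ℚ) (hR : R ≠ 0)
    (h : L (R : PadicAlgCl p) = 0) (q : ℕ) (hq : q.Prime) (hqp : q ≠ p) :
    padicValRat q R = 0 := by
  have : Fact q.Prime := ⟨hq⟩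
  have hR' : (R : PadicAlgCl p) ≠ 0 := by exact_mod_cast hR
  have hp0 : (p : PadicAlgCl p) ≠ 0 := Nat.cast_ne_zero.2 hp.out.ne_zero
  have hpQ : (p : ℚ) ≠ 0 := Nat.cast_ne_zero.2 hp.out.ne_zero
  obtain ⟨m, r, hm, hnear⟩ := exists_near (p := p) hR'
  have h1 : (R : PadicAlgCl p) ^ m * (p : PadicAlgCl p) ^ r = 1 := by
    refine hL.eq_one hnear ?_
    rw [hL.mul _ _ (pow_ne_zero _ hR') (zpow_ne_zero _ hp0), hL.pow hR', h, hL.zpow hp0, hL.prime]
    simp
  have h2 : R ^ m * (p : ℚ) ^ r = 1 := by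
    have h3 : ((R ^ m * (p : ℚ) ^ r : ℚ) : PadicAlgCl p) = ((1 : ℚ) : PadicAlgCl p) := by
      push_cast
      exact h1
    exact_mod_cast h3
  have h3 := congrArg (padicValRat q) h2
  rw [padicValRat.mul (pow_ne_zero _ hR) (zpow_ne_zero _ hpQ), padicValRat.pow,
    padicValRat.zpow, padicValRat.one] at h3
  have h4 : padicValRat q (p : ℚ) = 0 := by
    rw [padicValRat.of_nat, Nat.cast_eq_zero]
    exact padicValNat.eq_zero_of_not_dvd (fun hd => hqp ((Nat.prime_dvd_prime_iff_eq hq hp.out).1 hd))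
  rw [h4, mul_zero, add_zero] at h3
  rcases mul_eq_zero.1 h3 with h5 | h5
  · exact absurd (by exact_mod_cast h5) hm.ne'
  · exact h5

/-- relations between `p`-adic logarithms of rational numbers -/
theorem val_rel (hL : IsIwasawaLog p L) {ι : Type*} [Fintype ι] (a b g : ι → ℤ)
    (ha : ∀ i, a i ≠ 0) (hb : ∀ i, b i ≠ 0)
    (h : ∑ i, (g i : PadicAlgCl p) * (L (a i : PadicAlgCl p) - L (b i : PadicAlgCl p)) = 0)
    (q : ℕ) (hq : q.Prime) (hqp : q ≠ p) :
    ∑ i, g i * ((padicValInt q (a i) : ℤ) - padicValInt q (b i)) = 0 := by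
  have : Fact q.Prime := ⟨hq⟩
  set R : ℚ := ∏ i, ((a i : ℚ) / b i) ^ g i with hR
  have ha' : ∀ i, (a i : ℚ) ≠ 0 := fun i => by exact_mod_cast ha i
  have hb' : ∀ i, (b i : ℚ) ≠ 0 := fun i => by exact_mod_cast hb i
  have haR : ∀ i, (a i : PadicAlgCl p) ≠ 0 := fun i => by exact_mod_cast ha i
  have hbR : ∀ i, (b i : PadicAlgCl p) ≠ 0 := fun i => by exact_mod_cast hb i
  have hne : ∀ i ∈ (univ : Finset ι), ((a i : ℚ) / b i) ^ g i ≠ 0 := fun i _ =>
    zpow_ne_zero _ (div_ne_zero (ha' i) (hb' i))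
  have hR0 : R ≠ 0 := Finset.prod_ne_zero_iff.2 hne
  have h1 : L (R : PadicAlgCl p) = 0 := by
    rw [hR]
    push_cast
    rw [hL.prod _ _ (fun i _ => zpow_ne_zero _ (div_ne_zero (haR i) (hbR i)))]
    rw [← h]
    refine Finset.sum_congr rfl fun i _ => ?_
    rw [hL.zpow (div_ne_zero (haR i) (hbR i)), div_eq_mul_inv,
      hL.mul _ _ (haR i) (inv_ne_zero (hbR i)), hL.inv (hbR i), sub_eq_add_neg]
  have h2 := padicValRat_eq_zero hL R hR0 h1 q hq hqp
  rw [hR, padicValRat_prod q univ _ hne] at h2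
  rw [← h2]
  refine Finset.sum_congr rfl fun i _ => ?_
  rw [padicValRat.zpow, padicValRat.div (ha' i) (hb' i), padicValRat.of_int, padicValRat.of_int]

/-- **Independent `p`-adic logarithms.** -/
theorem log_indep (hL : IsIwasawaLog p L) {M : Type} [Fintype M] (F : M → ℕ → ℤ) (r : ℕ)
    (s q : Fin r → ℕ)
    (ρ : Fin r → M → ℕ) (hs : ∀ i c, F c (s i) ≠ 0) (hq : ∀ i c, F c (q i) ≠ 0)
    (hρ : ∀ i c, (ρ i c).Prime) (hρp : ∀ i c, ρ i c ≠ p) (h1 : ∀ i c, (ρ i c : ℤ) ∣ F c (q i))
    (h2 : ∀ i c c', c ≠ c' → ¬ (ρ i c : ℤ) ∣ F c' (q i))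
    (h3 : ∀ i c c', ¬ (ρ i c : ℤ) ∣ F c' (s i))
    (h4 : ∀ i i', i' < i → ∀ c c', ¬ (ρ i c : ℤ) ∣ F c' (s i') ∧ ¬ (ρ i c : ℤ) ∣ F c' (q i')) :
    LinearIndependent ℚ (fun z : Fin r × M =>
      L (F z.2 (q z.1) : PadicAlgCl p) - L (F z.2 (s z.1) : PadicAlgCl p)) := by
  classical
  rw [← LinearIndependent.iff_fractionRing ℤ ℚ, Fintype.linearIndependent_iff]
  intro g hg
  have hg' : ∑ z : Fin r × M, (g z : PadicAlgCl p) *
      (L (F z.2 (q z.1) : PadicAlgCl p) - L (F z.2 (s z.1) : PadicAlgCl p)) = 0 := by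
    rw [← hg]
    refine Finset.sum_congr rfl fun z _ => ?_
    rw [zsmul_eq_mul]
  have hval := val_rel hL (fun z : Fin r × M => F z.2 (q z.1)) (fun z => F z.2 (s z.1)) g
    (fun z => hq z.1 z.2) (fun z => hs z.1 z.2) hg'
  -- descending induction
  have key : ∀ n : ℕ, ∀ i : Fin r, r ≤ n + i.1 → ∀ c, g (i, c) = 0 := by
    intro n
    induction n with
    | zero =>
      intro i hi
      have := i.2
      omega
    | succ n ih =>
      intro i hi c
      have hlater : ∀ i' : Fin r, i < i' → ∀ c', g (i', c') = 0 := by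
        intro i' hii c'
        refine ih i' ?_ c'
        have : i.1 < i'.1 := hii
        omega
      have h5 := hval (ρ i c) (hρ i c) (hρp i c)
      rw [Finset.sum_eq_single (i, c)] at h5
      · have h6 : padicValInt (ρ i c) (F c (s i)) = 0 :=
          padicValInt.eq_zero_of_not_dvd (h3 i c c)
        have h7 : padicValInt (ρ i c) (F c (q i)) ≠ 0 := by
          intro h8
          rcases padicValInt.eq_zero_iff.1 h8 with h9 | h9 | h9
          · exact (hρ i c).ne_one h9
          · exact hq i c h9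
          · exact h9 (h1 i c)
        simp only [h6, Nat.cast_zero, sub_zero] at h5
        rcases mul_eq_zero.1 h5 with h8 | h8
        · exact h8
        · exact absurd (by exact_mod_cast h8) h7
      · rintro ⟨i', c'⟩ - hne
        rcases lt_trichotomy i' i with h6 | h6 | h6
        · rw [padicValInt.eq_zero_of_not_dvd (h4 i i' h6 c c').1,
            padicValInt.eq_zero_of_not_dvd (h4 i i' h6 c c').2]
          simp
        · subst h6
          have hcc : c ≠ c' := fun h => hne (by rw [h])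
          rw [padicValInt.eq_zero_of_not_dvd (h2 i' c c' hcc),
            padicValInt.eq_zero_of_not_dvd (h3 i' c c')]
          simp
        · rw [hlater i' h6 c', zero_mul]
      · intro h; exact absurd (Finset.mem_univ _) h
  rintro ⟨i, c⟩
  exact key r i (Nat.le_add_right _ _) c

theorem indep_combine {r b : ℕ} {M : Type} [Fintype M] (w : Fin r × Fin b → PadicAlgCl p)
    (hw : LinearIndependent ℚ w) (e : M → Fin b → ℕ)
    (he : LinearIndependent ℤ (fun c i => (e c i : ℤ))) :
    LinearIndependent ℚ (fun z : Fin r × M => ∑ i, (e z.2 i : PadicAlgCl p) * w (z.1, i)) := by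
  classical
  rw [← LinearIndependent.iff_fractionRing ℤ ℚ] at hw ⊢
  rw [Fintype.linearIndependent_iff] at hw he ⊢
  intro g hg
  have h1 : ∑ z : Fin r × Fin b, (∑ c, g (z.1, c) * (e c z.2 : ℤ)) • w z = 0 := by
    rw [← hg, Fintype.sum_prod_type, Fintype.sum_prod_type]
    refine Finset.sum_congr rfl fun i _ => ?_
    simp only [zsmul_eq_mul, Finset.mul_sum, Int.cast_sum, Finset.sum_mul, Int.cast_mul,
      Int.cast_natCast]
    rw [Finset.sum_comm]
    refine Finset.sum_congr rfl fun c _ => Finset.sum_congr rfl fun j _ => ?_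
    ring
  have h2 := hw _ h1
  rintro ⟨i, c⟩
  refine he (fun c => g (i, c)) ?_ c
  funext j
  rw [Finset.sum_apply, Pi.zero_apply]
  simp only [Pi.smul_apply, smul_eq_mul]
  exact h2 (i, j)

theorem log_prod_pow (hL : IsIwasawaLog p L) {b : ℕ} (κ : ℚ) (hκ : κ ≠ 0) (h : Fin b → ℤ)
    (hh : ∀ i, h i ≠ 0) (e : Fin b → ℕ) (g : ℤ) (hg : (g : ℚ) = κ * ∏ i, (h i : ℚ) ^ e i) :
    L (g : PadicAlgCl p) = L (κ : PadicAlgCl p) + ∑ i, (e i : PadicAlgCl p) * L (h i : PadicAlgCl p) := by
  have h1 : (g : PadicAlgCl p) = (κ : PadicAlgCl p) * ∏ i, (h i : PadicAlgCl p) ^ e i := by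
    have := congrArg (fun z : ℚ => (z : PadicAlgCl p)) hg
    push_cast at this
    exact this
  have hh' : ∀ i, (h i : PadicAlgCl p) ≠ 0 := fun i => by exact_mod_cast hh i
  have hκ' : (κ : PadicAlgCl p) ≠ 0 := by exact_mod_cast hκ
  have hne : ∀ i ∈ (univ : Finset (Fin b)), (h i : PadicAlgCl p) ^ e i ≠ 0 := fun i _ =>
    pow_ne_zero _ (hh' i)
  rw [h1, hL.mul _ _ hκ' (Finset.prod_ne_zero_iff.2 hne), hL.prod _ _ hne]
  congr 1
  exact Finset.sum_congr rfl fun i _ => hL.pow (hh' i) _

end log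

open Classical in
/-- **One variable.** The bound `x₀` does not depend on the prime, on the functions and on `t`. -/
theorem density_one {M : Type} [Fintype M] (G : M → ℤ[X]) (hG : MultIndep G) (p₀ : ℕ)
    (σ : Type) [Fintype σ] (D : ℕ) (ε : ℝ) (hε : 0 < ε) : ∃ x₀ : ℕ,
    ∀ (p : ℕ) [Fact p.Prime] (L : PadicAlgCl p → PadicAlgCl p), IsIwasawaLog p L →
    ∀ f : M → ArithmeticFunction (PadicAlgCl p), (∀ c, (f c).IsMultiplicative) →
    (∀ c, ∀ q : ℕ, q.Prime → p₀ ≤ q → f c q = (((G c).eval (q : ℤ) : ℤ) : PadicAlgCl p)) →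
    ∀ x ≥ x₀, ∀ t : σ → PadicAlgCl p, NoRel (QC (PadicAlgCl p)) D t →
      (((Ioc 0 x).filter fun n => (∀ c, f c n ≠ 0) ∧
        ¬ NoRel (QC (PadicAlgCl p)) D (Sum.elim t fun c => L (f c n))).card : ℝ) ≤ ε * x := by
  obtain ⟨b, H, e, κ, hdeg, hcop, he, hκ, hdec⟩ := decompQ G hG
  obtain ⟨w₀, K, E, hpw, hF⟩ := nice_of_poly H hdeg hcop p₀
  obtain ⟨r, hr⟩ := cube_logs σ M D
  obtain ⟨w₁, hw₁⟩ := exists_nat_ge (2 / ε)
  set w : ℕ := w₀ + w₁ + 1 with hw
  obtain ⟨x₀, hx₀⟩ := dense_cube hF (r + 1) (ε / 2) (by positivity) w (by omega)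
  refine ⟨x₀, fun P _ L hL f hf hfp x hx t ht => ?_⟩
  by_contra hcon
  push Not at hcon
  set A := (Ioc 0 x).filter fun n => (∀ c, f c n ≠ 0) ∧
        ¬ NoRel (QC (PadicAlgCl P)) D (Sum.elim t fun c => L (f c n)) with hA
  set A' := A.filter fun n => ¬ ∃ p, w < p ∧ p ^ 2 ∣ n with hA'
  have hA'card : ε / 2 * x ≤ A'.card := by
    have h1 := card_square w x (by omega)
    have h2 : A.card ≤ A'.card + ((Ioc 0 x).filter fun n => ∃ p, w < p ∧ p ^ 2 ∣ n).card := by
      rw [← Finset.card_filter_add_card_filter_not (s := A) (fun n => ¬ ∃ p, w < p ∧ p ^ 2 ∣ n)]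
      refine Nat.add_le_add_left (Finset.card_le_card ?_) _
      intro n hn
      rw [Finset.mem_filter, hA, Finset.mem_filter] at hn
      rw [Finset.mem_filter]
      exact ⟨hn.1.1, not_not.1 hn.2⟩
    have h2R : (A.card : ℝ) ≤ A'.card +
        (((Ioc 0 x).filter fun n => ∃ p, w < p ∧ p ^ 2 ∣ n).card : ℝ) := by exact_mod_cast h2
    have hw0 : (0 : ℝ) < w := by exact_mod_cast (by omega : 0 < w)
    have h3 : (x : ℝ) / w ≤ ε / 2 * x := by
      rw [div_le_iff₀ hw0]
      have h4 : 2 / ε ≤ w := hw₁.trans (by exact_mod_cast (by omega : w₁ ≤ w))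
      rw [div_le_iff₀ hε] at h4
      have h5 : (0 : ℝ) ≤ x := by positivity
      nlinarith
    linarith
  obtain ⟨a, p, q, ρ, ha, hp, hq, hinj, hρ1, hρ2, hcube⟩ := hx₀ x hx A'
    ((Finset.filter_subset _ _).trans (Finset.filter_subset _ _)) hA'card
  -- the primes
  have hFp : ∀ i c, (H c).eval ((p i : ℕ) : ℤ) ≠ 0 := fun i c =>
    hF.ne_zero c (p i) (by have := (hp i).2; omega)
  have hFq : ∀ i c, (H c).eval ((q i : ℕ) : ℤ) ≠ 0 := fun i c =>
    hF.ne_zero c (q i) (by have := (hq i).2; omega)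
  -- at most one of the directions of the cube belongs to the prime of the `p`-adic numbers
  obtain ⟨i₀, hi₀⟩ : ∃ i₀ : Fin (r + 1), ∀ i, i ≠ i₀ → ∀ c, ρ i c ≠ P := by
    by_cases hex : ∃ i c, ρ i c = P
    · obtain ⟨i₀, c₀, h0⟩ := hex
      refine ⟨i₀, fun i hi c hc => ?_⟩
      rcases lt_or_gt_of_ne hi with h | h
      · have h1 := (hρ2 i₀ i h c₀ c).2
        apply h1
        rw [h0, ← hc]
        exact (hρ1 i c).2.2.1
      · have h1 := (hρ2 i i₀ h c c₀).2
        apply h1
        rw [hc, ← h0]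
        exact (hρ1 i₀ c₀).2.2.1
    · push Not at hex
      exact ⟨0, fun i _ c => hex i c⟩
  set s' : Fin r → ℕ := fun i => p (i₀.succAbove i) with hs'
  set q' : Fin r → ℕ := fun i => q (i₀.succAbove i) with hq'
  set ρ' : Fin r → Fin b → ℕ := fun i => ρ (i₀.succAbove i) with hρ'
  have hli := log_indep hL (fun c n => (H c).eval (n : ℤ)) r s' q' ρ'
    (fun i c => hFp _ _) (fun i c => hFq _ _)
    (fun i c => (hρ1 _ c).1) (fun i c => hi₀ _ (Fin.succAbove_ne i₀ i) c)
    (fun i c => (hρ1 _ c).2.2.1)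
    (fun i c c' hcc => hF.coprime _ (hρ1 _ c).1 (by have := (hρ1 (i₀.succAbove i) c).2.1; omega)
      c c' hcc _ (hρ1 _ c).2.2.1) (fun i c c' => (hρ1 _ c).2.2.2 c')
    (fun i i' hii c c' => hρ2 _ _ (Fin.strictMono_succAbove i₀ hii) c c')
  -- the values at the primes of the cube
  have hGne : ∀ c (n : ℕ), (∀ i, (H i).eval (n : ℤ) ≠ 0) → (G c).eval (n : ℤ) ≠ 0 := by
    intro c n hn h0
    have h1 := hdec c n
    rw [h0, Int.cast_zero] at h1
    refine (mul_ne_zero (hκ c) (Finset.prod_ne_zero_iff.2 fun i _ => pow_ne_zero _ ?_)) h1.symm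
    exact_mod_cast hn i
  have hGp : ∀ i c, (G c).eval ((p i : ℕ) : ℤ) ≠ 0 := fun i c => hGne c (p i) (hFp i)
  have hGq : ∀ i c, (G c).eval ((q i : ℕ) : ℤ) ≠ 0 := fun i c => hGne c (q i) (hFq i)
  -- evaluation on the cube
  have hval : ∀ (S : Finset (Fin (r + 1))) (c : M),
      f c (a * ∏ i, (if i ∈ S then q i else p i)) =
        f c a * ∏ i, (((G c).eval (((if i ∈ S then q i else p i : ℕ)) : ℤ) : ℤ) : PadicAlgCl P) := by
    intro S c
    set s : Fin (r + 1) → ℕ := fun i => if i ∈ S then q i else p i with hs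
    have hsp : ∀ i, (s i).Prime ∧ w < s i := by
      intro i
      simp only [hs]
      split_ifs
      · exact hq i
      · exact hp i
    have hsinj : ∀ i i', i ≠ i' → s i ≠ s i' := by
      intro i i' hii h
      simp only [hs] at h
      split_ifs at h
      · exact hii (Sum.inr_injective (hinj (a₁ := Sum.inr i) (a₂ := Sum.inr i') h))
      · exact absurd (hinj (a₁ := Sum.inr i) (a₂ := Sum.inl i') h) (by simp)
      · exact absurd (hinj (a₁ := Sum.inl i) (a₂ := Sum.inr i') h) (by simp)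
      · exact hii (Sum.inl_injective (hinj (a₁ := Sum.inl i) (a₂ := Sum.inl i') h))
    have hmem := hcube S
    rw [hA', Finset.mem_filter] at hmem
    have hcop1 : Nat.Coprime a (∏ i, s i) := by
      rw [Nat.coprime_prod_right_iff]
      intro i _
      rw [Nat.coprime_comm, (hsp i).1.coprime_iff_not_dvd]
      intro hdvd
      apply hmem.2
      refine ⟨s i, (hsp i).2, ?_⟩
      rw [sq]
      exact Nat.mul_dvd_mul hdvd (Finset.dvd_prod_of_mem _ (Finset.mem_univ i))
    rw [(hf c).map_mul_of_coprime hcop1, ArithmeticFunction.IsMultiplicative.map_prod s (hf c) univ]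
    · congr 1
      refine Finset.prod_congr rfl fun i _ => ?_
      exact hfp c (s i) (hsp i).1 (by have := (hsp i).2; omega)
    · intro i _ i' _ hii
      exact (Nat.coprime_primes (hsp i).1 (hsp i').1).2 (hsinj i i' hii)
  have hfa : ∀ c, f c a ≠ 0 := by
    intro c h0
    have h1 := hcube ∅
    rw [hA', Finset.mem_filter, hA, Finset.mem_filter] at h1
    apply h1.1.2.1 c
    rw [hval, h0, zero_mul]
  -- the logarithms
  set w'' : Fin r × Fin b → PadicAlgCl P := fun z =>
    L (((H z.2).eval ((q' z.1 : ℕ) : ℤ) : ℤ) : PadicAlgCl P) -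
      L (((H z.2).eval ((s' z.1 : ℕ) : ℤ) : ℤ) : PadicAlgCl P) with hw''
  set w' : Fin r → M → PadicAlgCl P := fun i c =>
    L (((G c).eval ((q' i : ℕ) : ℤ) : ℤ) : PadicAlgCl P) -
      L (((G c).eval ((s' i : ℕ) : ℤ) : ℤ) : PadicAlgCl P) with hw'
  have hww : ∀ i c, w' i c = ∑ j, (e c j : PadicAlgCl P) * w'' (i, j) := by
    intro i c
    simp only [hw', hw'']
    rw [log_prod_pow hL (κ c) (hκ c) (fun j => (H j).eval ((q' i : ℕ) : ℤ)) (fun j => hFq _ _) (e c) _
      (hdec c (q' i)), log_prod_pow hL (κ c) (hκ c) (fun j => (H j).eval ((s' i : ℕ) : ℤ))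
      (fun j => hFp _ _) (e c) _ (hdec c (s' i))]
    rw [add_sub_add_left_eq_sub, ← Finset.sum_sub_distrib]
    refine Finset.sum_congr rfl fun j _ => ?_
    ring
  have hli' : LinearIndependent ℚ (fun z : Fin r × M => w' z.1 z.2) := by
    have h1 := indep_combine w'' hli e he
    convert h1 using 2 with z
    exact hww z.1 z.2
  have halg : ∀ i c, ∃ α : PadicAlgCl P, α ≠ 0 ∧ IsAlgebraic ℚ α ∧ w' i c = L α := by
    intro i c
    have h1 : (((G c).eval ((q' i : ℕ) : ℤ) : ℤ) : PadicAlgCl P) ≠ 0 := by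
      exact_mod_cast hGq _ c
    have h2 : (((G c).eval ((s' i : ℕ) : ℤ) : ℤ) : PadicAlgCl P) ≠ 0 := by
      exact_mod_cast hGp _ c
    refine ⟨(((G c).eval ((q' i : ℕ) : ℤ) : ℤ) : PadicAlgCl P) *
      (((G c).eval ((s' i : ℕ) : ℤ) : ℤ) : PadicAlgCl P)⁻¹, mul_ne_zero h1 (inv_ne_zero h2), ?_, ?_⟩
    · exact (isAlgebraic_intCast _).mul (isAlgebraic_intCast _).inv
    · simp only [hw']
      rw [hL.mul _ _ h1 (inv_ne_zero h2), hL.inv h2, sub_eq_add_neg]
  set v₀ : M → PadicAlgCl P := fun c => L (f c a) +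
    (L (((G c).eval ((p i₀ : ℕ) : ℤ) : ℤ) : PadicAlgCl P) +
      ∑ i, L (((G c).eval ((s' i : ℕ) : ℤ) : ℤ) : PadicAlgCl P)) with hv₀
  obtain ⟨S, hS⟩ := hr P L hL t ht v₀ w' halg hli'
  set S' : Finset (Fin (r + 1)) := S.map (Fin.succAboveEmb i₀) with hS'
  have hmem := hcube S'
  rw [hA', Finset.mem_filter, hA, Finset.mem_filter] at hmem
  apply hmem.1.2.2
  have hi₀S : i₀ ∉ S' := by
    rw [hS', Finset.mem_map]
    rintro ⟨j, -, hj⟩
    exact Fin.succAbove_ne i₀ j hj
  have hsS : ∀ j : Fin r, i₀.succAbove j ∈ S' ↔ j ∈ S := by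
    intro j
    rw [hS']
    exact Finset.mem_map' (Fin.succAboveEmb i₀)
  have hlog : ∀ c, L (f c (a * ∏ i, (if i ∈ S' then q i else p i))) =
      v₀ c + ∑ i ∈ S, w' i c := by
    intro c
    have hne : ∀ i ∈ (univ : Finset (Fin (r + 1))),
        (((G c).eval (((if i ∈ S' then q i else p i : ℕ)) : ℤ) : ℤ) : PadicAlgCl P) ≠ 0 := by
      intro i _
      split_ifs
      · exact_mod_cast hGq i c
      · exact_mod_cast hGp i c
    rw [hval, hL.mul _ _ (hfa c) (Finset.prod_ne_zero_iff.2 hne), hL.prod _ _ hne]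
    rw [Fin.sum_univ_succAbove _ i₀, if_neg hi₀S]
    simp only [hv₀, hw', hsS]
    rw [add_assoc, add_assoc]
    congr 2
    rw [Finset.sum_sub_distrib]
    rw [← Finset.sum_filter_add_sum_filter_not univ (fun i => i ∈ S)
      (fun i => L (((G c).eval (((if i ∈ S then q (i₀.succAbove i) else
        p (i₀.succAbove i) : ℕ)) : ℤ) : ℤ) : PadicAlgCl P)),
      ← Finset.sum_filter_add_sum_filter_not univ (fun i => i ∈ S)
      (fun i => L (((G c).eval ((s' i : ℕ) : ℤ) : ℤ) : PadicAlgCl P))]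
    have e1 : univ.filter (fun i => i ∈ S) = S := by ext i; simp
    rw [e1]
    have e2 : ∑ i ∈ S, L (((G c).eval (((if i ∈ S then q (i₀.succAbove i) else
        p (i₀.succAbove i) : ℕ)) : ℤ) : ℤ) : PadicAlgCl P) =
        ∑ i ∈ S, L (((G c).eval ((q' i : ℕ) : ℤ) : ℤ) : PadicAlgCl P) := by
      apply Finset.sum_congr rfl
      intro i hi
      rw [if_pos hi]
    have e3 : ∑ i ∈ univ.filter (fun i => i ∉ S), L (((G c).eval (((if i ∈ S then
        q (i₀.succAbove i) else p (i₀.succAbove i) : ℕ)) : ℤ) : ℤ) : PadicAlgCl P) =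
        ∑ i ∈ univ.filter (fun i => i ∉ S),
          L (((G c).eval ((s' i : ℕ) : ℤ) : ℤ) : PadicAlgCl P) := by
      apply Finset.sum_congr rfl
      intro i hi
      rw [Finset.mem_filter] at hi
      rw [if_neg hi.2]
    rw [e2, e3]
    ring
  have h5 : (fun c => L (f c (a * ∏ i, (if i ∈ S' then q i else p i)))) =
      fun c => v₀ c + ∑ i ∈ S, w' i c := funext hlog
  rw [h5]
  exact hS

open Classical in
/-- **Tuples.** -/
theorem density_tuples {M : Type} [Fintype M] (G : M → ℤ[X]) (hG : MultIndep G) (p₀ : ℕ)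
    (D k : ℕ) : ∀ (σ : Type) [Fintype σ] (ε : ℝ), 0 < ε → ∃ x₀ : ℕ,
    ∀ (p : ℕ) [Fact p.Prime] (L : PadicAlgCl p → PadicAlgCl p), IsIwasawaLog p L →
    ∀ f : M → ArithmeticFunction (PadicAlgCl p), (∀ c, (f c).IsMultiplicative) →
    (∀ c, ∀ q : ℕ, q.Prime → p₀ ≤ q → f c q = (((G c).eval (q : ℤ) : ℤ) : PadicAlgCl p)) →
    ∀ x ≥ x₀, ∀ t : σ → PadicAlgCl p, NoRel (QC (PadicAlgCl p)) D t →
      (((Fintype.piFinset fun _ : Fin k => Ioc 0 x).filter fun n =>
        (∀ i c, f c (n i) ≠ 0) ∧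
        ¬ NoRel (QC (PadicAlgCl p)) D
          (Sum.elim t fun z : Fin k × M => L (f z.2 (n z.1)))).card : ℝ) ≤
      ε * x ^ k := by
  induction k with
  | zero =>
    intro σ _ ε hε
    refine ⟨0, fun P _ L hL f hf hfp x _ t ht => ?_⟩
    rw [Finset.filter_false_of_mem]
    · simp [hε.le]
    · intro n _
      push Not
      intro _
      rw [← NoRel.reindex_iff (Equiv.sumEmpty σ (Fin 0 × M)).symm]
      exact ht
  | succ k ih =>
    intro σ _ ε hε
    obtain ⟨x₁, hx₁⟩ := density_one G hG p₀ σ D (ε / 2) (by linarith)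
    obtain ⟨x₂, hx₂⟩ := ih (σ ⊕ M) (ε / 2) (by linarith)
    refine ⟨max x₁ x₂, fun P _ L hL f hf hfp x hx t ht => ?_⟩
    set bad : ((Fin (k + 1)) → ℕ) → Prop := fun n => (∀ i c, f c (n i) ≠ 0) ∧
      ¬ NoRel (QC (PadicAlgCl P)) D (Sum.elim t (fun z : Fin (k + 1) × M => L (f z.2 (n z.1)))) with hbad
    set B := (Fintype.piFinset fun _ : Fin (k + 1) => Ioc 0 x).filter bad with hB
    set A := (Ioc 0 x).filter (fun n : ℕ => (∀ c, f c n ≠ 0) ∧
      ¬ NoRel (QC (PadicAlgCl P)) D (Sum.elim t fun c => L (f c n))) with hA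
    have hAcard : (A.card : ℝ) ≤ ε / 2 * x := hx₁ P L hL f hf hfp x (le_trans (le_max_left _ _) hx) t ht
    have hfib : B.card = ∑ a ∈ Ioc 0 x, (B.filter (fun n => n 0 = a)).card := by
      apply Finset.card_eq_sum_card_fiberwise
      intro n hn
      have hn' : n ∈ B := hn
      rw [hB, Finset.mem_filter, Fintype.mem_piFinset] at hn'
      exact hn'.1 0
    have hle : ∀ a, (B.filter (fun n => n 0 = a)).card ≤
        ((Fintype.piFinset fun _ : Fin k => Ioc 0 x).filter (fun m => bad (Fin.cons a m))).card := by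
      intro a
      apply Finset.card_le_card_of_injOn (fun n => Fin.tail n)
      · intro n hn
        have hn' : n ∈ B.filter (fun n => n 0 = a) := hn
        rw [Finset.mem_filter, hB, Finset.mem_filter, Fintype.mem_piFinset] at hn'
        have hcons : (Fin.cons a (Fin.tail n) : Fin (k + 1) → ℕ) = n := by
          rw [← hn'.2]; exact Fin.cons_self_tail n
        show Fin.tail n ∈ _
        rw [Finset.mem_coe, Finset.mem_filter, Fintype.mem_piFinset]
        refine ⟨fun j => hn'.1.1 j.succ, ?_⟩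
        rw [hcons]
        exact hn'.1.2
      · intro n hn m hm h
        have hn' : n ∈ B.filter (fun n => n 0 = a) := hn
        have hm' : m ∈ B.filter (fun n => n 0 = a) := hm
        rw [Finset.mem_filter] at hn' hm'
        rw [← Fin.cons_self_tail n, ← Fin.cons_self_tail m, hn'.2, hm'.2]
        have : Fin.tail n = Fin.tail m := h
        rw [this]
    have hgood : ∀ a ∈ Ioc 0 x, a ∉ A →
        (((Fintype.piFinset fun _ : Fin k => Ioc 0 x).filter (fun m => bad (Fin.cons a m))).card : ℝ) ≤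
          ε / 2 * x ^ k := by
      intro a ha haA
      by_cases h0 : ∀ c, f c a ≠ 0
      · have hta : NoRel (QC (PadicAlgCl P)) D (Sum.elim t fun c => L (f c a)) := by
          by_contra hcon
          apply haA
          rw [hA, Finset.mem_filter]
          exact ⟨ha, h0, hcon⟩
        have h1 := hx₂ P L hL f hf hfp x (le_trans (le_max_right _ _) hx) _ hta
        refine le_trans ?_ h1
        have h2 : (Fintype.piFinset fun _ : Fin k => Ioc 0 x).filter (fun m => bad (Fin.cons a m)) ⊆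
            (Fintype.piFinset fun _ : Fin k => Ioc 0 x).filter fun n =>
              (∀ i c, f c (n i) ≠ 0) ∧
              ¬ NoRel (QC (PadicAlgCl P)) D (Sum.elim (Sum.elim t fun c => L (f c a))
                fun z : Fin k × M => L (f z.2 (n z.1))) := by
          intro m hm
          rw [Finset.mem_filter] at hm ⊢
          refine ⟨hm.1, fun i c => hm.2.1 i.succ c, ?_⟩
          intro hno
          apply hm.2.2
          rw [← NoRel.reindex_iff (tupEquiv σ M k)]
          have : (Sum.elim t (fun z : Fin (k + 1) × M =>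
              L (f z.2 ((Fin.cons a m : Fin (k + 1) → ℕ) z.1)))) ∘ tupEquiv σ M k =
              Sum.elim (Sum.elim t fun c => L (f c a))
                fun z : Fin k × M => L (f z.2 (m z.1)) := by
            funext s
            rcases s with (i | c) | ⟨j, c⟩ <;> simp [tupEquiv]
          rw [this]
          exact hno
        exact_mod_cast Finset.card_le_card h2
      · push Not at h0
        obtain ⟨c, hc⟩ := h0
        rw [Finset.filter_false_of_mem]
        · simp only [Finset.card_empty, Nat.cast_zero]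
          positivity
        · intro m _ hm
          exact hm.1 0 c hc
    have htriv : ∀ a, (((Fintype.piFinset fun _ : Fin k => Ioc 0 x).filter (fun m => bad (Fin.cons a m))).card : ℝ) ≤
          (x : ℝ) ^ k := by
      intro a
      have h1 := Finset.card_filter_le (Fintype.piFinset fun _ : Fin k => Ioc 0 x) (fun m => bad (Fin.cons a m))
      rw [Fintype.card_piFinset] at h1
      simp only [Nat.card_Ioc, Finset.prod_const, Finset.card_univ, Fintype.card_fin] at h1
      have h2 : (((Fintype.piFinset fun _ : Fin k => Ioc 0 x).filter (fun m => bad (Fin.cons a m))).card : ℝ) ≤ (((x - 0) ^ k : ℕ) : ℝ) := by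
        exact_mod_cast h1
      simpa using h2
    have hAsub : A ⊆ Ioc 0 x := Finset.filter_subset _ _
    calc (B.card : ℝ) = ∑ a ∈ Ioc 0 x, ((B.filter (fun n => n 0 = a)).card : ℝ) := by
          rw [hfib]; push_cast; rfl
      _ ≤ ∑ a ∈ Ioc 0 x, ((if a ∈ A then (x : ℝ) ^ k else 0) + ε / 2 * x ^ k) := by
          apply Finset.sum_le_sum
          intro a ha
          have h1 : ((B.filter (fun n => n 0 = a)).card : ℝ) ≤
            (((Fintype.piFinset fun _ : Fin k => Ioc 0 x).filter (fun m => bad (Fin.cons a m))).card : ℝ) := by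
            exact_mod_cast hle a
          by_cases haA : a ∈ A
          · rw [if_pos haA]
            have h2 := htriv a
            have h3 : (0 : ℝ) ≤ ε / 2 * x ^ k := by positivity
            linarith
          · rw [if_neg haA, zero_add]
            exact h1.trans (hgood a ha haA)
      _ = (A.card : ℝ) * x ^ k + x * (ε / 2 * x ^ k) := by
          rw [Finset.sum_add_distrib, ← Finset.sum_filter, Finset.filter_mem_eq_inter,
            Finset.inter_eq_right.2 hAsub, Finset.sum_const, Finset.sum_const, Nat.card_Ioc,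
            nsmul_eq_mul, nsmul_eq_mul]
          simp
      _ ≤ (ε / 2 * x) * x ^ k + x * (ε / 2 * x ^ k) := by gcongr
      _ = ε * x ^ (k + 1) := by ring

end Pool.Agent.H23.PF
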